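import Pool.Agent.W761.CP.Defs

/-!
# Project CP, part QUA: cutting off the eigenfunctions of the inner operator
-/

set_option autoImplicit false

open MeasureTheory
open scoped ENNReal FourierTransform SchwartzMap InnerProductSpace

namespace Pool.Agent.W513.CP

open Pool.Agent.W761.CP
open Pool.Agent.Helper209.CX (Ed L2d InH1 dirichlet IsHu)

theorem mulR_memLp {d : ℕ} {χ : Ed d → ℝ} (hc : Measurable χ) (h0 : ∀ x, |χ x| ≤ 1)
    (u : L2d d) : MemLp (fun x => (χ x : ℂ) * u x) 2 volume := by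
  refine MemLp.mono (Lp.memLp u) ?_ ?_
  · exact (Complex.measurable_ofReal.comp hc).aestronglyMeasurable.mul (Lp.aestronglyMeasurable u)
  · refine Filter.Eventually.of_forall fun x => ?_
    rw [norm_mul, Complex.norm_real, Real.norm_eq_abs]
    exact mul_le_of_le_one_left (norm_nonneg _) (h0 x)

theorem mulR_coe {d : ℕ} {χ : Ed d → ℝ} (hc : Measurable χ) (h0 : ∀ x, |χ x| ≤ 1)
    (u : L2d d) : ∀ᵐ x, (mulR χ u : L2d d) x = (χ x : ℂ) * u x := by
  unfold mulR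
  rw [dif_pos (mulR_memLp hc h0 u)]
  exact MemLp.coeFn_toLp _

theorem mulR_smul {d : ℕ} {χ : Ed d → ℝ} (hc : Measurable χ) (h0 : ∀ x, |χ x| ≤ 1)
    (c : ℂ) (u : L2d d) : mulR χ (c • u) = c • mulR χ u := by
  refine Lp.ext ?_
  have h1 := mulR_coe hc h0 (c • u)
  have h2 := mulR_coe hc h0 u
  have h3 := Lp.coeFn_smul c u
  have h4 := Lp.coeFn_smul c (mulR χ u)
  filter_upwards [h1, h2, h3, h4] with x e1 e2 e3 e4
  rw [e1, e4, e3, Pi.smul_apply, Pi.smul_apply, e2, smul_eq_mul, smul_eq_mul]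
  ring

theorem norm_sq_int {d : ℕ} (u : L2d d) : ‖u‖ ^ 2 = ∫ x, ‖u x‖ ^ 2 := by
  have h1 : (⟪u, u⟫_ℂ) = ∫ x, ⟪u x, u x⟫_ℂ := L2.inner_def u u
  have h2 : ⟪u, u⟫_ℂ = ((‖u‖ ^ 2 : ℝ) : ℂ) := by
    rw [inner_self_eq_norm_sq_to_K]
    push_cast
    rfl
  have h3 : ∫ x, ⟪u x, u x⟫_ℂ = ((∫ x, ‖u x‖ ^ 2 : ℝ) : ℂ) := by
    rw [← integral_complex_ofReal]
    refine integral_congr_ae (Filter.Eventually.of_forall fun x => ?_)
    simp only
    rw [inner_self_eq_norm_sq_to_K]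
    push_cast
    rfl
  exact_mod_cast (h2.symm.trans (h1.trans h3))

theorem int_sq {d : ℕ} (u : L2d d) : Integrable (fun x => ‖u x‖ ^ 2) volume :=
  (Lp.memLp u).norm.integrable_sq

theorem qua : S_AGM → S_E2 → S_E0 → S_POT → S_COM → S_CM1 → S_QUA := by
  intro hAGM hE2 hE0 hPOT hCOM hCM1 d W M χ b φ a hW hM lev
  obtain ⟨C1, hC1, hcom⟩ := hCOM d χ lev.χm
  have hM0 : 0 < M := by linarith
  obtain ⟨-, hFB, -, hp1, -, hp3⟩ := hPOT d W M χ b φ a hW hM0 lev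
  refine ⟨max 1 (Real.sqrt (C1 * (M / 2))), 1, le_max_left _ _, one_pos, ?_⟩
  intro h hh hh1 ψ E hE hEM hH
  obtain ⟨g, hg, -⟩ := id hH
  obtain ⟨V, hVd⟩ : ∃ V, V = Vin W M χ := ⟨_, rfl⟩
  rw [← hVd] at hFB hH
  have hχm : Measurable χ := lev.χm.smooth.continuous.measurable
  have hχm' : Measurable fun x => 1 - χ x := measurable_const.sub hχm
  have hχa : ∀ x, |χ x| ≤ 1 := fun x => abs_le.mpr ⟨by linarith [lev.χ0 x], lev.χ1 x⟩
  have hχa' : ∀ x, |1 - χ x| ≤ 1 := fun x =>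
    abs_le.mpr ⟨by linarith [lev.χ1 x], by linarith [lev.χ0 x]⟩
  have hVre : ∀ x, 0 ≤ (V x).re := by
    intro x
    rw [hVd]
    unfold Vin
    split_ifs
    · simpa using hW.nonneg x
    · simpa using hM0.le
  have hVb : ∀ x, b x ≠ 0 → M ≤ (V x).re := by
    intro x hx
    rw [hVd]
    unfold Vin
    split_ifs
    · simpa using lev.bW x hx
    · simp
  -- decay
  obtain ⟨g1, hg1⟩ : ∃ g1, g1 = comm h χ ψ g := ⟨_, rfl⟩
  have hagm := hAGM d h M a V b ψ 0 g (E : ℂ) hh hM0 lev.apos.le hFB hVre lev.bm lev.bc lev.b0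
    lev.b1 hVb lev.ab (by rw [Complex.ofReal_re]; linarith) (by rw [add_zero]; exact hH) hg
  have hc1 := hcom b h ψ g lev.bm.smooth.continuous.measurable lev.bχ hh hh1.le
  rw [← hg1] at hc1
  have hI2 : 0 ≤ ∫ x in {x | b x = 1}, ‖ψ x‖ ^ 2 := integral_nonneg fun x => by positivity
  have hsq : ‖g1‖ ^ 2 ≤ (Real.sqrt (C1 * (M / 2)) * Real.exp (-(a / h)) * ‖ψ‖) ^ 2 := by
    rw [mul_pow, mul_pow, Real.sq_sqrt (by positivity), ← Real.exp_nat_mul]
    have e1 : ((2 : ℕ) : ℝ) * -(a / h) = -(2 * a / h) := by push_cast; ring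
    rw [e1]
    calc ‖g1‖ ^ 2 ≤ C1 * (h ^ 2 * (∫ x in {x | b x = 1}, ∑ k, ‖g k x‖ ^ 2) +
          ∫ x in {x | b x = 1}, ‖ψ x‖ ^ 2) := hc1
      _ ≤ C1 * (Real.exp (-(2 * a / h)) * (M / 2) * ‖ψ‖ ^ 2) := by
          apply mul_le_mul_of_nonneg_left _ hC1
          rw [norm_zero, mul_zero, add_zero] at hagm
          nlinarith
      _ = C1 * (M / 2) * Real.exp (-(2 * a / h)) * ‖ψ‖ ^ 2 := by ring
  have hg1n : ‖g1‖ ≤ Real.sqrt (C1 * (M / 2)) * Real.exp (-(a / h)) * ‖ψ‖ :=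
    le_of_sq_le_sq hsq (by positivity)
  have hg1n' : ‖g1‖ ≤ max 1 (Real.sqrt (C1 * (M / 2))) * Real.exp (-(a / h)) * ‖ψ‖ := by
    refine hg1n.trans ?_
    gcongr
    exact le_max_right _ _
  -- the cut off function
  have h2 := hE2 d h V ψ ((E : ℂ) • ψ) g χ hFB hH hg lev.χm
  rw [mulR_smul hχm hχa, ← hg1] at h2
  refine ⟨-g1, ?_, ?_, ?_⟩
  · rw [hp1]
    have e2 : ((E : ℂ) + Complex.I) • mulR χ ψ + -g1 - Complex.I • mulR χ ψ =
        (E : ℂ) • mulR χ ψ - g1 := by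
      rw [add_smul]; abel
    rw [e2, ← hVd]
    exact h2
  · rw [norm_neg]; exact hg1n'
  · obtain ⟨hm1, hcm, -⟩ := hCM1 d h χ ψ g lev.χm
    have h3 := hE2 d h V ψ ((E : ℂ) • ψ) g (fun x => 1 - χ x) hFB hH hg hm1
    rw [mulR_smul hχm' hχa', hcm, ← hg1, sub_neg_eq_add] at h3
    obtain ⟨w, hw⟩ : ∃ w, w = mulR (fun x => 1 - χ x) ψ := ⟨_, rfl⟩
    rw [← hw] at h3
    have hwe : mulR χ ψ - ψ = -w := by
      have := hp3 ψ
      rw [← hw] at this
      rw [eq_comm, neg_eq_iff_eq_neg, neg_sub, eq_sub_iff_add_eq, add_comm]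
      exact this
    rw [hwe, norm_neg]
    obtain ⟨gw, hgw, -⟩ := id h3
    have h4 := (hE0 d h V w ((E : ℂ) • w + g1) gw hFB h3 hgw).1
    obtain ⟨hVm, CV, -, hVi⟩ := hFB
    have hi := (hVi w gw hgw).1
    have hi2 : Integrable (fun x => (V x).re * ‖w x‖ ^ 2) volume := by
      refine Integrable.mono hi ?_ (Filter.Eventually.of_forall fun x => ?_)
      · refine AEStronglyMeasurable.mul ?_ ?_
        · exact (Complex.measurable_re.comp hVm).aestronglyMeasurable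
        · exact (int_sq w).aestronglyMeasurable
      · rw [norm_mul, norm_mul, Real.norm_eq_abs, norm_norm]
        exact mul_le_mul_of_nonneg_right (Complex.abs_re_le_norm _) (norm_nonneg _)
    have h5 : M * ‖w‖ ^ 2 ≤ ∫ x, (V x).re * ‖w x‖ ^ 2 := by
      rw [norm_sq_int, ← integral_const_mul]
      refine integral_mono_ae ((int_sq w).const_mul M) hi2 ?_
      have hwc := mulR_coe hχm' hχa' ψ
      rw [← hw] at hwc
      filter_upwards [hwc, lev.φW] with x e1 e2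
      by_cases hx : χ x = 1
      · rw [e1, hx]
        simp
      · apply mul_le_mul_of_nonneg_right _ (by positivity)
        rw [hVd]
        unfold Vin
        split_ifs with h0
        · rw [Complex.ofReal_re]
          refine e2 ?_ hx
          rw [lev.φG x (lev.χG x h0)]
          exact one_ne_zero
        · rw [Complex.ofReal_re]
    have h6 : (⟪w, (E : ℂ) • w + g1⟫_ℂ).re ≤ E * ‖w‖ ^ 2 + ‖w‖ * ‖g1‖ := by
      rw [inner_add_right, inner_smul_right, inner_self_eq_norm_sq_to_K, Complex.add_re]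
      have e1 : ((E : ℂ) * ((‖w‖ : ℝ) : ℂ) ^ 2).re = E * ‖w‖ ^ 2 := by
        rw [← Complex.ofReal_pow, ← Complex.ofReal_mul, Complex.ofReal_re]
      have e2 : (⟪w, g1⟫_ℂ).re ≤ ‖w‖ * ‖g1‖ :=
        (Complex.re_le_norm _).trans (norm_inner_le_norm _ _)
      exact add_le_add e1.le e2
    have h7 : 0 ≤ h ^ 2 * ∑ k, ‖gw k‖ ^ 2 := by positivity
    have h8 : (M - E) * ‖w‖ ^ 2 ≤ ‖w‖ * ‖g1‖ := by nlinarith
    have h9 : ‖w‖ ≤ ‖g1‖ := by
      by_contra hcon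
      push Not at hcon
      have hwp : 0 < ‖w‖ := lt_of_le_of_lt (norm_nonneg _) hcon
      have : 1 ≤ M - E := by linarith
      nlinarith
    exact h9.trans hg1n'

end Pool.Agent.W513.CP
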